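import Pool.Agent.Helper63.Sey3.Goals

/-!
# SEY3-MAIN (project SEY3 of helper63, MP_b6b2d3_co)
-/

set_option autoImplicit false

namespace Pool.Agent.Helper84.Sey3

open Pool.Agent.Helper63.Sey3
open Pool.Agent.Helper8.Sey (near NearBd)

theorem compl_card {V : Type} [Fintype V] [DecidableEq V] (G : SimpleGraph V)
    [DecidableRel G.Adj] (v : V) :
    Nat.card {u // Gᶜ.Adj v u} = Fintype.card V - 1 - G.degree v := by
  rw [← SimpleGraph.degree_compl, ← SimpleGraph.card_neighborSet_eq_degree, ← Nat.card_eq_fintype_card]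
  rfl

open Classical in
/-- sizes of fibres -/
theorem fib {V U : Type} [Fintype V] [Fintype U] (un : V → U) (Q : U → Prop) :
    ∑ a ∈ Finset.univ.filter Q, Nat.card {x // un x = a} = Nat.card {v // Q (un v)} := by
  have h1 : Nat.card {v // Q (un v)} = (Finset.univ.filter (fun v : V => Q (un v))).card := by
    rw [Nat.card_eq_fintype_card, Fintype.card_subtype]
  rw [h1, Finset.card_eq_sum_card_fiberwise (f := un) (t := Finset.univ.filter Q)]
  · apply Finset.sum_congr rfl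
    intro a ha
    rw [Nat.card_eq_fintype_card, Fintype.card_subtype, Finset.filter_filter]
    congr 1
    ext v
    simp only [Finset.mem_filter, Finset.mem_univ, true_and] at ha ⊢
    constructor
    · intro h
      exact ⟨by rw [h]; exact ha, h⟩
    · exact fun h => h.2
  · intro v hv
    simpa using hv

open Classical in
/-- weight sums -/
theorem wsum {U : Type} [Fintype U] (wt : U → ℕ) (cc : U → Bool)
    (h : ∀ a, wt a = if cc a = true then 2 else 1) (Q : U → Prop) :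
    ∑ a ∈ Finset.univ.filter Q, wt a =
      Nat.card {a // Q a ∧ cc a = false} + 2 * Nat.card {a // Q a ∧ cc a = true} := by
  have h1 : ∀ b : Bool, Nat.card {a // Q a ∧ cc a = b} =
      (Finset.univ.filter (fun a : U => Q a ∧ cc a = b)).card := by
    intro b
    rw [Nat.card_eq_fintype_card, Fintype.card_subtype]
  rw [h1, h1, Finset.sum_congr rfl (fun a _ => h a), Finset.sum_ite, Finset.sum_const,
    Finset.sum_const, Finset.filter_filter, Finset.filter_filter]
  have e1 : Finset.univ.filter (fun a : U => Q a ∧ ¬ cc a = true) =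
      Finset.univ.filter (fun a : U => Q a ∧ cc a = false) := by
    ext a
    simp
  rw [e1]
  simp only [smul_eq_mul, mul_one]
  ring

theorem div_bd (a b K : ℕ) (hK : 1 ≤ K) :
    a / K + 2 * (b / K) ≤ (a + 2 * b) / K ∧ (a + 2 * b) / K ≤ a / K + 2 * (b / K) + 2 := by
  have h1 := Nat.div_add_mod a K
  have h2 := Nat.div_add_mod b K
  have h3 := Nat.mod_lt a hK
  have h4 := Nat.mod_lt b hK
  generalize a / K = qa at *
  generalize b / K = qb at *
  generalize a % K = ra at *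
  generalize b % K = rb at *
  constructor
  · rw [Nat.le_div_iff_mul_le hK]
    nlinarith
  · have h5 : (a + 2 * b) / K < qa + 2 * qb + 3 := by
      rw [Nat.div_lt_iff_lt_mul hK]
      nlinarith
    omega

theorem goalMAIN : GoalDEC → GoalSPLIT → GoalCORE → GoalMAIN := by
  intro hDEC hSPLIT hCORE δ hδ
  obtain ⟨δ1, hδ1, hδ1', hδ1δ⟩ : ∃ δ1 : ℝ, 0 < δ1 ∧ δ1 ≤ 1 ∧ δ1 ≤ δ :=
    ⟨min δ 1, lt_min hδ one_pos, min_le_right _ _, min_le_left _ _⟩
  obtain ⟨δ', hδ'0, hδ'1, hdec⟩ := hDEC (δ1 / 2) (by linarith) (by linarith)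
  obtain ⟨γ, M1, hγ0, hcore⟩ := hCORE (δ' / 2) (by linarith) (by linarith)
  obtain ⟨γ1, hγ1, hγ1', hγ1γ⟩ : ∃ γ1 : ℝ, 0 < γ1 ∧ γ1 ≤ 1 ∧ γ1 ≤ γ :=
    ⟨min γ 1, lt_min hγ0 one_pos, min_le_right _ _, min_le_left _ _⟩
  obtain ⟨M0, hM1, hM0, hsplit⟩ := hSPLIT (γ1 / 8) δ' M1 (by linarith) hδ'0 hδ'1
  choose f hf using hcore
  -- the maximum of the N0
  obtain ⟨N0, hN0⟩ : ∃ N0 : ℕ, ∀ D : ℕ, ∀ h : M1 ≤ D, D ≤ 5 * M0 → f D h ≤ N0 := by
    refine ⟨(Finset.range (5 * M0 + 1)).sup (fun D => if h : M1 ≤ D then f D h else 0), ?_⟩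
    intro D h hD
    have h1 := Finset.le_sup (f := fun D => if h : M1 ≤ D then f D h else 0)
      (Finset.mem_range.2 (by omega : D < 5 * M0 + 1))
    simpa [h] using h1
  obtain ⟨B, hB1, hB2⟩ : ∃ B : ℕ, M0 ≤ B ∧ 2 / δ1 ≤ B :=
    ⟨max M0 ⌈2 / δ1⌉₊, le_max_left _ _, (Nat.le_ceil _).trans (by exact_mod_cast le_max_right _ _)⟩
  refine ⟨max (2 * B) (N0 + ⌈36 / γ1⌉₊ + 9), γ1 / 2, by linarith, ?_⟩
  intro r hr V _ _ G _ hn hdeg hindep
  set n := Fintype.card V with hndef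
  have hr2 : N0 + ⌈36 / γ1⌉₊ + 9 ≤ r := (le_max_right _ _).trans hr
  have hr3 : 36 / γ1 ≤ (r : ℝ) := by
    refine (Nat.le_ceil (36 / γ1)).trans ?_
    exact_mod_cast (by omega : ⌈36 / γ1⌉₊ ≤ r)
  have hn1 : 2 * B * r ≤ n := (Nat.mul_le_mul_right r (le_max_left _ _)).trans hn
  set Δ := n / (r + 1) with hΔdef
  have hΔB : B ≤ Δ := by
    rw [hΔdef, Nat.le_div_iff_mul_le (by omega)]
    nlinarith
  have hΔ2 : Δ * (r + 1) ≤ n := Nat.div_mul_le_self n (r + 1)
  have hΔ3 : n < (Δ + 1) * (r + 1) := by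
    have h1 := Nat.div_add_mod n (r + 1)
    have h2 := Nat.mod_lt n (by omega : 0 < r + 1)
    rw [← hΔdef] at h1
    nlinarith
  have hdegH : ∀ v, Nat.card {u // Gᶜ.Adj v u} ≤ Δ := by
    intro v
    rw [compl_card, hΔdef, Nat.le_div_iff_mul_le (by omega)]
    have h2 := G.minDegree_le_degree v
    have h3 : n - 1 - G.degree v ≤ n - G.minDegree := by omega
    calc (Fintype.card V - 1 - G.degree v) * (r + 1) ≤ (n - G.minDegree) * (r + 1) :=
          Nat.mul_le_mul_right _ h3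
      _ = n * (r + 1) - G.minDegree * (r + 1) := Nat.sub_mul _ _ _
      _ ≤ n := by
          have h4 : r * n + n = n * (r + 1) := by ring
          have h5 : (r + 1) * G.minDegree = G.minDegree * (r + 1) := by ring
          omega
  -- cliques of the complement
  have hcl : ∀ T : Finset V, (∀ x ∈ T, ∀ y ∈ T, x ≠ y → Gᶜ.Adj x y) →
      (T.card : ℝ) ≤ (1 - δ1 / 2) * Δ := by
    intro T hT
    have h1 := hindep T (by
      intro u hu v hv huv
      exact ((SimpleGraph.compl_adj G u v).1 (hT u hu v hv huv.ne)).2 huv)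
    have h2 : (n : ℝ) < ((Δ : ℝ) + 1) * ((r : ℝ) + 1) := by exact_mod_cast hΔ3
    have h3 : (1 - δ) * (n : ℝ) ≤ (1 - δ1) * n :=
      mul_le_mul_of_nonneg_right (by linarith) (Nat.cast_nonneg n)
    have h4 : (1 - δ1) * (n : ℝ) ≤ (1 - δ1) * (((Δ : ℝ) + 1) * ((r : ℝ) + 1)) :=
      mul_le_mul_of_nonneg_left h2.le (by linarith)
    have h5 : ((r : ℝ) + 1) * T.card ≤ ((r : ℝ) + 1) * ((1 - δ1) * ((Δ : ℝ) + 1)) := by
      calc ((r : ℝ) + 1) * T.card ≤ (1 - δ1) * (((Δ : ℝ) + 1) * ((r : ℝ) + 1)) :=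
            h1.trans (h3.trans h4)
        _ = ((r : ℝ) + 1) * ((1 - δ1) * ((Δ : ℝ) + 1)) := by ring
    have h6 : (T.card : ℝ) ≤ (1 - δ1) * ((Δ : ℝ) + 1) :=
      le_of_mul_le_mul_left h5 (by positivity)
    have h7 : 2 ≤ δ1 * (Δ : ℝ) := by
      have h8 : (B : ℝ) ≤ Δ := by exact_mod_cast hΔB
      rw [div_le_iff₀ hδ1] at hB2
      nlinarith
    nlinarith
  obtain ⟨U, hU, un, H', hun, hfib, hdegU, hspU⟩ := hdec V Gᶜ Δ hdegH hcl
  -- weights
  let wt : U → ℕ := fun a => Nat.card {x // un x = a}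
  let cc : U → Bool := fun a => decide (wt a = 2)
  have hwt : ∀ a, wt a = if cc a = true then 2 else 1 := by
    intro a
    have h1 : 1 ≤ wt a ∧ wt a ≤ 2 := hfib a
    have h2 : cc a = true ↔ wt a = 2 := by simp [cc]
    split_ifs with h3
    · exact h2.1 h3
    · have h4 : wt a ≠ 2 := fun h => h3 (h2.2 h)
      omega
  obtain ⟨K', D, part, hK', hMD, hD5, hKM, hKD, hnb, hsp, hsz⟩ :=
    hsplit U H' cc Δ (hB1.trans hΔB) hdegU hspU
  have hs1 : K' * (M0 * (r + 1)) ≤ n := by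
    calc K' * (M0 * (r + 1)) = K' * M0 * (r + 1) := by ring
      _ ≤ Δ * (r + 1) := Nat.mul_le_mul_right _ hKM
      _ ≤ n := hΔ2
  have hs2 : M0 * (r + 1) ≤ n / K' := by
    rw [Nat.le_div_iff_mul_le (by omega)]
    linarith [mul_comm K' (M0 * (r + 1))]
  have hs3 : r + 1 ≤ n / K' := le_trans (by nlinarith) hs2
  -- total weight
  have htot : n = Nat.card {a // cc a = false} + 2 * Nat.card {a // cc a = true} := by
    have h1 := fib un (fun _ => True)
    have h2 := wsum wt cc hwt (fun _ => True)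
    have h3 : Nat.card {v : V // True} = n := by
      rw [hndef, ← Nat.card_eq_fintype_card]
      exact Nat.card_congr (Equiv.subtypeUnivEquiv (fun _ => trivial))
    have h4 : ∀ b : Bool, Nat.card {a : U // True ∧ cc a = b} = Nat.card {a : U // cc a = b} := by
      intro b
      exact Nat.card_congr (Equiv.subtypeEquivRight (fun a => by simp))
    rw [h3] at h1
    rw [h4, h4] at h2
    rw [← h2, ← h1]
  have hbd := div_bd (Nat.card {a // cc a = false}) (Nat.card {a // cc a = true}) K' hK'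
  rw [← htot] at hbd
  obtain ⟨sP, hsP⟩ : ∃ sP : ℕ, sP + 3 = n / K' := ⟨n / K' - 3, by omega⟩
  have hsum : ∀ m < K', sP ≤ Nat.card {a // part a = m ∧ cc a = false} +
      2 * Nat.card {a // part a = m ∧ cc a = true} ∧
      Nat.card {a // part a = m ∧ cc a = false} +
      2 * Nat.card {a // part a = m ∧ cc a = true} ≤ 2 * sP := by
    intro m hm
    have h1 := hsz m hm false
    have h2 := hsz m hm true
    omega
  have hMDD : M1 ≤ D := hM1.trans hMD
  have hcore' := hf D hMDD U H' K' part wt sP hK' hnb hsp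
    ((hN0 D hMDD hD5).trans (by omega)) hfib
  have hcond : ∀ m < K', sP ≤ ∑ v ∈ Finset.univ.filter (fun v => part v = m), wt v ∧
        ∑ v ∈ Finset.univ.filter (fun v => part v = m), wt v ≤ 2 * sP := by
    intro m hm
    have h1 := wsum wt cc hwt (fun a => part a = m)
    have h2 : ∑ v ∈ Finset.univ.filter (fun v => part v = m), wt v =
        Nat.card {a // part a = m ∧ cc a = false} +
        2 * Nat.card {a // part a = m ∧ cc a = true} := by
      rw [← h1]
      apply Finset.sum_congr _ (fun _ _ => rfl)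
      ext a
      simp
    rw [h2]
    exact hsum m hm
  obtain ⟨N, J, m0, C, τ, hN2, hJ2, hτ, hprop, harc, hblk, hx⟩ := hcore' (by
    intro m hm
    have h := hcond m hm
    convert h using 3)
  obtain ⟨σ, hσ⟩ := Pool.Agent.Helper38.Sey.goalASM V Gᶜ N J m0 (C ∘ un) (τ ∘ un) hN2 hJ2
    (fun v => hτ (un v)) (fun u v h => hprop _ _ (hun u v h))
    (fun u v h h' => harc _ _ (hun u v h) h') (by
      intro g j hj
      have h1 := hblk g j hj
      have h2 := fib un (fun a => C a = g ∧ τ a = j)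
      show m0 ≤ Nat.card {v // C (un v) = g ∧ τ (un v) = j}
      rw [← h2]
      refine h1.trans (le_of_eq ?_)
      apply Finset.sum_congr _ (fun _ _ => rfl)
      ext a
      simp)
  refine ⟨σ, ?_⟩
  intro i k hki hd
  by_contra hadj
  have hH : Gᶜ.Adj (σ i) (σ k) := by
    rw [SimpleGraph.compl_adj]
    exact ⟨fun h => hki (σ.injective h).symm, hadj⟩
  have hlb0 := hσ i k hH
  have hlb : (((J - 2) * m0 : ℕ) : ℝ) < (((k.val + n - i.val) % n : ℕ) : ℝ) := by
    exact_mod_cast hlb0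
  rw [Nat.cast_mul] at hlb
  have hlb2 : (1 + γ) * sP / D < (1 + γ1 / 2) * r := lt_of_le_of_lt hx (lt_of_lt_of_le hlb hd)
  -- real estimates
  have hK'r : (1 : ℝ) ≤ K' := by exact_mod_cast hK'
  have hDr : (1 : ℝ) ≤ D := by exact_mod_cast (by omega : 1 ≤ D)
  have hΔr : (Δ : ℝ) * (r + 1) ≤ n := by exact_mod_cast hΔ2
  have hsK : (n : ℝ) ≤ ((sP : ℝ) + 4) * K' := by
    have h2 : n < (n / K' + 1) * K' := by
      have := Nat.div_add_mod n K'
      have h3 := Nat.mod_lt n (by omega : 0 < K')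
      nlinarith
    rw [← hsP] at h2
    have h3 : (n : ℝ) < (((sP : ℝ) + 3) + 1) * K' := by exact_mod_cast h2
    linarith
  have hrγ : 36 ≤ γ1 * (r : ℝ) := by
    rw [div_le_iff₀ hγ1] at hr3
    linarith
  have e1 : (D : ℝ) * (r + 1) ≤ (1 + γ1 / 8) * ((sP : ℝ) + 4) := by
    have h1 : (K' : ℝ) * (D * (r + 1)) ≤ K' * ((1 + γ1 / 8) * ((sP : ℝ) + 4)) := by
      calc (K' : ℝ) * (D * (r + 1)) = (K' * D) * (r + 1) := by ring
        _ ≤ ((1 + γ1 / 8) * Δ) * (r + 1) := mul_le_mul_of_nonneg_right hKD (by positivity)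
        _ = (1 + γ1 / 8) * (Δ * (r + 1)) := by ring
        _ ≤ (1 + γ1 / 8) * (((sP : ℝ) + 4) * K') :=
            mul_le_mul_of_nonneg_left (hΔr.trans hsK) (by linarith)
        _ = K' * ((1 + γ1 / 8) * ((sP : ℝ) + 4)) := by ring
    exact le_of_mul_le_mul_left h1 (by linarith)
  have hsP0 : (0 : ℝ) ≤ sP := Nat.cast_nonneg _
  have hr0 : (0 : ℝ) ≤ r := Nat.cast_nonneg _
  have e2 : (1 + 7 / 9 * γ1) * ((D : ℝ) * (r + 1)) ≤ (1 + γ1) * ((sP : ℝ) + 4) := by
    calc (1 + 7 / 9 * γ1) * ((D : ℝ) * (r + 1)) ≤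
          (1 + 7 / 9 * γ1) * ((1 + γ1 / 8) * ((sP : ℝ) + 4)) :=
          mul_le_mul_of_nonneg_left e1 (by linarith)
      _ = ((1 + 7 / 9 * γ1) * (1 + γ1 / 8)) * ((sP : ℝ) + 4) := by ring
      _ ≤ (1 + γ1) * ((sP : ℝ) + 4) := by
          apply mul_le_mul_of_nonneg_right _ (by linarith)
          nlinarith
  have e3 : (1 + γ) * (sP : ℝ) < (1 + γ1 / 2) * r * D := by
    rw [div_lt_iff₀ (by linarith)] at hlb2
    exact hlb2
  have e4 : (1 + γ1) * (sP : ℝ) ≤ (1 + γ) * sP := mul_le_mul_of_nonneg_right (by linarith) hsP0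
  have e5 : (r : ℝ) * γ1 * D ≥ 36 := by nlinarith
  nlinarith

end Pool.Agent.Helper84.Sey3
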